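import Pool.Agent.Helper68.SK.Main
import Pool.Agent.Helper93.SK.SUB
import Pool.Agent.Helper12.SK.Exc
import Pool.Agent.Helper22.SK.Proj
import Pool.Agent.Helper14.SK.IS
import Pool.Agent.Helper96.SK.Ref
import Pool.Agent.Helper53.SK.PEQ
import Pool.Agent.Helper23.SK.Chain
import Pool.Agent.Helper86.SK.EQ
import Pool.Agent.Helper37.SK.Fin
import Pool.Agent.Helper69.SK.CNT
import Pool.Agent.Helper85.SK.Nat
import Pool.Agent.Helper89.SK.StarJ
import Pool.Agent.Helper36.SK.Beta
import Pool.Agent.Helper48.SK.StarCnt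
import Pool.Agent.Helper56.SK.StarAff
import Pool.Agent.Helper35.SK.StarPair
import Pool.Agent.Helper52.C2.Main
import Pool.Agent.Helper60.LZ.R4

/-! PROJECT SK: all hypotheses discharged. -/

namespace Pool.Agent.Helper68.SK

open Finset Pool.Agent.Helper52.C2 Pool.Agent

/-- all windows of the counts of a multigraph are one-positive -/
theorem goalMain : GoalMain :=
  main Helper93.SK.sub Helper12.SK.exc Helper22.SK.gProj Helper14.SK.goalIS Helper96.SK.ref
    Helper53.SK.peq Helper23.SK.chain Helper86.SK.sk_eq Helper37.SK.goalFin Helper69.SK.cntSK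
    Helper24.C2.opMap

/-- kernels with the counts of a multigraph as coefficients are POS -/
theorem posOfCnt {V E : Type} [Fintype V] [DecidableEq V] [Fintype E] [DecidableEq E]
    (g : E → V × V) (c : V → Bool) (hc : Function.Surjective c)
    (hg : ∀ e, c (g e).1 ≠ c (g e).2) (Φ : (E → Tg) → LaurentPolynomial ℝ) (hΦ : Affine Φ)
    (k : ℤ) (h : ∀ n : E → ℤ, (∀ e, 0 ≤ n e) → ∀ i : ℤ,
      (Φ (fun e => U (n e))).coeff i = cnt g c (wt k n i)) :
    Pos Φ (fun _ => True) (fun _ => U 0) :=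
  Helper85.SK.sNat goalMain Helper37.SK.goalFin Helper24.C2.opMap Helper24.C2.opMono
    V E g c hc hg Φ hΦ k h

theorem starCnt (r : ℕ) (n : Fin r × Bool → ℤ) (hn : ∀ e, 0 ≤ n e) (i : ℤ) :
    (starK r (fun e => U (n e))).coeff i = cnt (starG r) (starC r) (wt r n i) :=
  Helper48.SK.goalStarCnt Helper37.SK.goalFin Helper89.SK.starJ Helper36.SK.beta r n hn i

/-- the star kernels are POS -/
theorem starPos (r : ℕ) : Pos (starK (r + 1)) (fun _ => True) (fun _ => U 0) := by
  refine posOfCnt (starG (r + 1)) (starC (r + 1)) ?_ ?_ (starK (r + 1))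
    (Helper56.SK.goalStarAff Helper58.C2.goalNonneg (r + 1)).1 ((r + 1 : ℕ) : ℤ) ?_
  · rintro (_ | _)
    · exact ⟨.inl false, rfl⟩
    · exact ⟨.inr 0, rfl⟩
  · intro e
    simp [starG, starC]
  · intro n hn i
    exact starCnt (r + 1) n hn i

/-- the pair of a star of closure pairs is good -/
theorem starPair (r : ℕ) (S T : Fin r → Tg) (hS : ∀ i, (S i).HH1) (hT : ∀ i, (T i).HH1) :
    GoodPair (∏ i, ((S i).mul (T i)).F)
      (∑ i, (S i).F * (T i).F * ∏ j ∈ univ.erase i, ((S j).mul (T j)).F) :=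
  Helper35.SK.starPair starPos Helper56.SK.goalStarAff Helper58.C2.goalNonneg
    (Helper52.C2.subst (Helper52.C2.mt1' (Helper60.LZ.r4 Helper67.LZ.kap)))
    Helper33.C2.goalCoefH Helper24.C2.opMap Helper81.C2.pos1 r S T hS hT

end Pool.Agent.Helper68.SK

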