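import Pool.Agent.Helper68.SK.Defs
import Pool.Agent.Helper52.C2.Goals

/-!
PROJECT SK (MP_2b0227_gt, target T2), goals. Complete proofs in words are in the docstrings.
NOTATION in the docstrings. `z(U) = mass g z U`, `n e = - z (inr e)`, `h(a, U) = 1` if `a` hits `U`
and `0` if not. For a base `z` with total `-1` put `s(U) = - z(U)`; then `s(∅) = 0`, `s(V) = 1`,
`s(U) + s(U') = s(U ∪ U') + s(U ∩ U') + n(C)`, `C` the edges that hit `U` and `U'` but not
`U ∩ U'` (vertices never do this), and `okp z a b` iff `h(a,U) + h(b,U) ≤ s(U)` for all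
nonempty proper `U`.
-/

namespace Pool.Agent.Helper68.SK

open Finset Pool.Agent.Helper52.C2

/-- SUB. Elementary facts about `mass`. (1): for every `a`, the sum of the indicators of
`hit U a`, `hit U' a` is the sum of those of `hit (U ∪ U') a`, `hit (U ∩ U') a` and of the last
condition. (2) the difference is a sum over edges only. (3)-(5) direct. (6) `push` preserves the
total and is linear, `push f (δ a) = δ (f a)`. -/
def GoalSub : Prop :=
  (∀ (V E : Type) [Fintype V] [DecidableEq V] [Fintype E] [DecidableEq E] (g : E → V × V)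
    (z : V ⊕ E → ℤ),
    (∀ U U' : Finset V, mass g z U + mass g z U' = mass g z (U ∪ U') + mass g z (U ∩ U') +
      ∑ a, if hit g U a ∧ hit g U' a ∧ ¬ hit g (U ∩ U') a then z a else 0) ∧
    (∀ U U' : Finset V, (∀ e, z (.inr e) ≤ 0) →
      mass g z U + mass g z U' ≤ mass g z (U ∪ U') + mass g z (U ∩ U')) ∧
    (∀ (U U' : Finset V) (e : E), (∀ e, z (.inr e) ≤ 0) → hit g U (.inr e) → hit g U' (.inr e) →
      ¬ hit g (U ∩ U') (.inr e) →
      mass g z U + mass g z U' ≤ mass g z (U ∪ U') + mass g z (U ∩ U') + z (.inr e)) ∧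
    (∀ (U : Finset V) (a : V ⊕ E), mass g (z + δ a) U = mass g z U + if hit g U a then 1 else 0) ∧
    (∀ (U : Finset V) (a : V ⊕ E), mass g (z - δ a) U = mass g z U - if hit g U a then 1 else 0) ∧
    mass g z ∅ = 0 ∧ mass g z univ = ∑ a, z a) ∧
  (∀ (D D' : Type) [Fintype D] [DecidableEq D] [Fintype D'] [DecidableEq D'] (f : D → D'),
    (∀ z, ∑ b, push f z b = ∑ a, z a) ∧ (∀ z w, push f (z + w) = push f z + push f w) ∧
    (∀ z w, push f (z - w) = push f z - push f w) ∧ (∀ a, push f (δ a) = δ (f a)))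

/-- EXC. One-sided exchange for `SS g`. Let `z, w ∈ SS g`, `w u < z u` and suppose that
`z - δ u + δ y ∉ SS g` for every `y` with `z y < w y`. For such a `y` the total is right and the
edge coordinates are `≤ 0` (if `y` is an edge, `z y + 1 ≤ w y ≤ 0`), so there is a nonempty proper
`U_y` with `(z - δ u + δ y)(U_y) > 0`, i.e. `z(U_y) = 0`, `y` hits `U_y`, `u` does not hit `U_y`.
Let `W` be the union of all these `U_y`. It is not hit by `u`, so `W ≠ V`. By SUB(2),
`z(U ∪ U') ≥ z(U) + z(U') - z(U ∩ U') ≥ 0` if `z(U) = z(U') = 0` (as `z(U ∩ U') ≤ 0`), so by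
induction over the union `z(W) = 0` (also if `W` is empty). Now `w(W) ≤ 0 = z(W)`, so the sum of
`w - z` over the elements not hitting `W` is `≥ 0` (both totals are `1`). But all `y` with
`z y < w y` hit `W`, so this is a sum of terms `≤ 0`, and the term of `u` is `< 0`.
Contradiction. -/
def GoalExc : Prop := GoalSub → ∀ (V E : Type) [Fintype V] [DecidableEq V] [Fintype E]
  [DecidableEq E] (g : E → V × V), Exch (SS g)

/-- PROJ. One-sided exchange passes to images under `push f`. Let `Z = push f z₀`,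
`W = push f w` with `z₀, w ∈ S` and `W u < Z u`. Let
`M = {z ∈ S | ∃ y, W y ≤ Z y ∧ push f z = Z - δ u + δ y}`; `z₀ ∈ M` with `y = u`. Choose `z ∈ M`
with `∑ a, |z a - w a|` minimal, and its `y`. Then `push f z y > W y` (if `y ≠ u` it is
`Z y + 1`, if `y = u` it is `Z u`), so there is `t` with `f t = y`, `w t < z t`. Exchange gives
`t'` with `z t' < w t'` and `z' = z - δ t + δ t' ∈ S`. `push f z' = Z - δ u + δ (f t')` and
`z'` is closer to `w`, so `z' ∉ M`, so `Z (f t') < W (f t')`: take `f t'`. -/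
def GoalProj : Prop := GoalSub → ∀ (D D' : Type) [Fintype D] [DecidableEq D] [Fintype D']
  [DecidableEq D'] (f : D → D') (S : Set (D → ℤ)), Exch S → Exch (push f '' S)

/-- IS. (REP): let `S` have one-sided exchange, `γ y ≤ β y` for all `y ≠ u`. If
`β + δ c + δ d ∈ S` and `γ + δ u + δ d' ∈ S` then `β + δ u + δ d'' ∈ S` for some `d''`.
Proof. If `c = u` or `d = u` take the other one. Otherwise put `w = γ + δ u + δ d'`.
(i) If `d' ∈ {c, d}`, say `d' = c`: `z = β + δ d' + δ d` has `z d > w d` (`w d = γ d + [d' = d]`,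
`z d = β d + 1 + [d' = d]`), and every `y` with `z y < w y` is `u` (for `y ≠ u`,
`w y = γ y + [y = d'] ≤ z y`), so exchange gives `z - δ d + δ u = β + δ d' + δ u ∈ S`.
(ii) If `d' ∉ {c, d}`: `z = β + δ c + δ d`, `z c > w c`, exchange gives `y` with `z y < w y`,
hence `y = u` (done: `β + δ d + δ u ∈ S`) or `y = d'` and `β + δ d' + δ d ∈ S`: (i) applies.
(IS): let `1 ≠ 2`, `β i = β₀ + i (δ 1 - δ 2)`, `L = {i | ∃ c d, β i + δ c + δ d ∈ S}`,
`T = {i | ∃ d, β i + δ 1 + δ d ∈ S}`. If `p ∈ T`, `i, j ∈ L`, `i ≤ m < j` then `m ∈ T`. Proof.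
(L1) `i ∈ L`, `p ∈ T`, `i ≤ p` imply `i ∈ T`: REP with `β i`, `γ = β p`, `u = 1`.
(L2) `j ∈ L`, `p ∈ T`, `p + 1 ≤ j` imply `j - 1 ∈ T`: REP with `β j`, `γ = β (p+1)`, `u = 2`
(`β p + δ 1 = β (p+1) + δ 2`, `β j + δ 2 = β (j-1) + δ 1`).
If `p < m` then `j - 1 ∈ T` by (L2) and `m ≤ j - 1`: so we may assume `m ≤ p`. Then `i ∈ T` by
(L1), and `k ∈ T`, `k < p` imply `k + 1 ∈ L` (as `β k + δ 1 = β (k+1) + δ 2`) and `k + 1 ∈ T`
by (L1); by induction `m ∈ T`. -/
def GoalIS : Prop := ∀ (D : Type) [Fintype D] [DecidableEq D] (S : Set (D → ℤ)), Exch S →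
  (∀ (β γ : D → ℤ) (u c d d' : D), (∀ y, y ≠ u → γ y ≤ β y) → β + δ c + δ d ∈ S →
    γ + δ u + δ d' ∈ S → ∃ d'', β + δ u + δ d'' ∈ S) ∧
  (∀ (β₀ : D → ℤ) (x y : D) (p i j m : ℤ), x ≠ y →
    (∃ d, β₀ + p • (δ x - δ y) + δ x + δ d ∈ S) →
    (∃ c d, β₀ + i • (δ x - δ y) + δ c + δ d ∈ S) →
    (∃ c d, β₀ + j • (δ x - δ y) + δ c + δ d ∈ S) → i ≤ m → m < j →
    ∃ d, β₀ + m • (δ x - δ y) + δ x + δ d ∈ S)

/-- REF. Refined windows: being a bad pair is transitive. Let `(a,b)`, `(b,c)` be bad and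
`(b,d)` good at the base `z` with total `-1`, `n ≥ 0`; if `b` is an edge its size is `≥ 1`. There
are nonempty proper `U₁`, `U₂` with `h(a,U₁) + h(b,U₁) > s(U₁) ≥ h(b,U₁) + h(d,U₁)` and
`h(b,U₂) + h(c,U₂) > s(U₂) ≥ h(b,U₂) + h(d,U₂)`. So `a` hits `U₁`, `s(U₁) = h(b,U₁)`, `d` does not
hit `U₁`; `c` hits `U₂`, `s(U₂) = h(b,U₂)`, `d` does not hit `U₂`. If `s(U₁) = 0` or `s(U₂) = 0`,
`(a,c)` is bad. Otherwise `b` hits `U₁` and `U₂` and `s(U₁) = s(U₂) = 1`. `U₁ ∪ U₂ ≠ V` as `d`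
does not hit it. If `b` hits `U₁ ∩ U₂` then `s(U₁ ∩ U₂) ≥ 1` (`(b,d)` is good), so
`s(U₁ ∪ U₂) ≤ 2 - 1` by SUB(2). If not, `b` is an edge in `C` and SUB(3) gives
`s(U₁ ∪ U₂) ≤ 2 - s(U₁ ∩ U₂) - n(b) ≤ 1` (`s(U₁ ∩ U₂) ≥ 0`, also for the empty set). As `a`, `c`
hit `U₁ ∪ U₂`, `(a,c)` is bad. -/
def GoalRef : Prop := GoalSub → ∀ (V E : Type) [Fintype V] [DecidableEq V] [Fintype E]
  [DecidableEq E] (g : E → V × V) (z : V ⊕ E → ℤ), ∑ a, z a = -1 → (∀ e, z (.inr e) ≤ 0) →
  ∀ a b c d : V ⊕ E, al z b → ¬ okp g z a b → ¬ okp g z b c → okp g z b d → ¬ okp g z a c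

/-- PEQ. Put `l a = 1` if `a` is allowed and `M a d ≠ 0` for some allowed `d`, `l a = 0` otherwise.
For `v` supported on the allowed elements, `quad M v = (∑ l a v a)^2 - ∑_{(a,b) ∈ N} v a v b`,
`N` the set of the pairs with `l a = l b = 1`, `M a b = 0`. `N` is symmetric and transitive, so
with `cl a = {b | (a,b) ∈ N}` one has `(a,b) ∈ N` iff `(a,a), (b,b) ∈ N` and `cl a = cl b`, and the
last sum is the sum over all sets `K` of the squares of
`∑ v a` over the `a` with `(a,a) ∈ N`, `cl a = K`. -/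
def GoalPeq : Prop := ∀ (ι : Type) [Fintype ι] [DecidableEq ι] (ok : ι → Prop)
  (M : ι → ι → ℝ), (∀ a b, M a b = 0 ∨ M a b = 1) → (∀ a b, M a b = M b a) →
  (∀ a b c d, ok a → ok b → ok c → ok d → M a b = 0 → M b c = 0 → M b d ≠ 0 → M a c = 0) →
  OnePos ok M

/-- CHAIN. Merging of two variables. All entries are `≥ 0` and symmetric. Write `Q_i` for the form
of `mat2 a b c i` on `(x₁, x₂, w)` (`w` allowed), `Q` for the form of the claim on `(x, w)`.
(1) If `Q_i ≠ 0` on the allowed directions then `Q_i(1,1) > 0` for the vector `1` of all allowed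
directions and `Q_i ≤ 0` on `Q_i(1, ·) = 0`: with `l` from OnePos, `l(1) ≠ 0` (else
`Q_i(1,1) ≤ 0`); for `Q_i(1,v) = 0`, `t = l(v)/l(1)`: `0 ≥ Q_i(v - t 1) = Q_i(v) + t² Q_i(1,1)`.
If `Q_i = 0` this is trivial.
(2) `α_i := Q_i(e₁, 1) = a_(i+2) + a_(i+1) + b_(i+1)(1) = Q_(i+1)(e₂, 1)` and
`γ_i(w) := Q_i(w, 1) = b_(i+1)(w) + b_i(w) + c_i(w, 1)`. So
`Q_i(1, (x₁,x₂,w)) = α_i x₁ + α_(i-1) x₂ + γ_i(w)`.
(3) Let `L(x,w) = ∑_i (α_(i-1) x + γ_i(w))` be the covector of the claim, and let `L(x,w) = 0`.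
Put `φ_i = - ∑_(i' ≤ i) (α_(i'-1) x + γ_i'(w))` and `μ_i = φ_i / α_i` (`0` if `α_i = 0`).
Then `α_i μ_i = φ_i` for all `i`: if `α_i = 0` and `φ_i ≠ 0` then, since `φ_i ≠ 0`, some
`i' ≤ i` is live (otherwise the terms vanish: `α_(i'-1) = Q_i'(e₂,1)`), and since
`φ_i = ∑_(i' > i) (...)` (as `L(x,w) = 0`), some `j > i` is live, so `α_i ≠ 0` by the hypothesis
on cuts. Hence `Q_i(1, (μ_i, x - μ_(i-1), w)) = φ_i + α_(i-1) x - φ_(i-1) + γ_i(w) = 0` and
`Q_i(μ_i, x - μ_(i-1), w) ≤ 0` for all `i`.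
(4) Identity, for every sequence `μ` with `μ_i = 0` for `|i| > N + 2`, say (`μ_i = 0` where
`α_i = 0`, so it holds for our `μ`): `Q(x,w) = ∑_i Q_i(μ_i, x - μ_(i-1), w)
- ∑_p (μ_(p-1) - μ_(p-2))² a_p`. (`x²`-part: the coefficient of `a_p` in the first sum is
`μ_(p-2)² + 2 μ_(p-1) (x - μ_(p-2)) + (x - μ_(p-1))² = x² + (μ_(p-1) - μ_(p-2))²`; of
`2 b_p(w)`: `μ_(p-1) + x - μ_(p-1) = x`.) So `Q(x,w) ≤ 0`. (In Lean all sums are over
`Icc (-K) K` with `K = N + 3`, or over `ℤ` with finite support.) -/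
def GoalChain : Prop := ∀ (ι : Type) [Fintype ι] [DecidableEq ι] (ok : ι → Prop) (N : ℕ)
  (a : ℤ → ℝ) (b : ℤ → ι → ℝ) (c : ℤ → ι → ι → ℝ),
  (∀ p, 0 ≤ a p) → (∀ p w, 0 ≤ b p w) → (∀ p w w', 0 ≤ c p w w') →
  (∀ p w w', c p w w' = c p w' w) →
  (∀ p, (N : ℤ) < |p| → a p = 0 ∧ (∀ w, b p w = 0) ∧ ∀ w w', c p w w' = 0) →
  (∀ i, OnePos (ok2 ok) (mat2 a b c i)) →
  (∀ i m j, i ≤ m → m < j → (∃ α β, ok2 ok α ∧ ok2 ok β ∧ mat2 a b c i α β ≠ 0) →
    (∃ α β, ok2 ok α ∧ ok2 ok β ∧ mat2 a b c j α β ≠ 0) →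
    ∃ β, ok2 ok β ∧ mat2 a b c m (.inl false) β ≠ 0) →
  OnePos (ok1 ok) (mat1 (∑ p ∈ Icc (-(N : ℤ)) N, a p) (fun w => ∑ p ∈ Icc (-(N : ℤ)) N, b p w)
    (fun w w' => ∑ p ∈ Icc (-(N : ℤ)) N, c p w w'))

/-- EQ. Let `z`, `z'` be refined bases over the same `w`, with `n ≥ 0` and total `-1`, both with
an allowed good pair, such that the vertices in nontrivial colour classes (`¬ tr`) are loops at
both. Then the same allowed pairs (not involving these vertices) are good at `z` and `z'`.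
Proof. (0) Domination: if `y ∈ JJ g` then `y - δ (inr e) + δ (inl u) ∈ JJ g` for an end `u` of
`e`; so if an allowed pair is good then there is a good pair whose point lies in `SS g` (only
`(e,e)` with `z e = -1` has its point outside: replace it by `(e, u)`).
(1) Pairs with point in `SS g`. Let `z + δ c + δ d ∈ SS g`, `W = z' + δ a + δ b ∈ SS g`, `a`, `b`
not in nontrivial classes. `z` and `z'` agree at the edges and at the vertices in trivial classes.
`c`, `d` are not in nontrivial classes (loops). If the multisets `{c,d}`, `{a,b}` differ then one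
of `c`, `d`, say `c`, has larger multiplicity in `{c,d}` than in `{a,b}`, so
`(z + δ c + δ d) c > W c`. Exchange in `SS g`: `y` with `(z + δ c + δ d) y < W y` and
`z + δ d + δ y ∈ SS g`. `y` is not in a nontrivial class (loop at `z`), so `y ∈ {a,b}` with larger
multiplicity in `{a,b}`. After at most two steps the multisets agree: `z + δ a + δ b ∈ SS g`.
(2) `a = b = inr e`, `z e = -1`, good at `z'`, to show: good at `z` (`z`, `z'` are symmetric).
For every `v` in a nontrivial class `(v,e)` is bad at `z'`: there is `U_v` with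
`h(v,U_v) + h(e,U_v) > s'(U_v)`; as `2 h(e,U_v) ≤ s'(U_v)`, `e` does not hit `U_v`, `v ∈ U_v` and
`s'(U_v) = 0`. Let `U'` be the union of the `U_v`; `e` does not hit it, so it is proper, and
`s'(U') = 0` by SUB(2) (`s' ≥ 0` on proper sets because there is a good pair). `U'` contains all
nontrivial classes, so `s(U') = s'(U')`, `s(U ∪ U') = s'(U ∪ U')` for all `U` (the two sets are
unions of classes). If there is no nontrivial class then `z = z'`. Suppose `2 h(e,U) > s(U)`,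
`U` nonempty proper. Then `e` hits `U` and `0 ≤ s(U) ≤ 1`.
`s(U ∪ U') + s(U ∩ U') ≤ s(U) + s(U') = s(U) ≤ 1`, `s(U ∩ U') ≥ 0`. If `U ∪ U' ≠ V` then
`s(U ∪ U') = s'(U ∪ U') ≥ 2` (`e` hits it): contradiction. So `U ∪ U' = V`, `s(U) = 1`. Let
`(a,b)` be good at `z`: they do not hit `U'` (`s(U') = 0`), so both hit `U`: `2 ≤ s(U) = 1`,
contradiction. -/
def GoalEq : Prop := GoalSub → GoalExc → ∀ (V E P : Type) [Fintype V] [DecidableEq V] [Fintype E]
  [DecidableEq E] [Fintype P] [DecidableEq P] (g : E → V × V) (c : V → P) (z z' : V ⊕ E → ℤ),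
  ∑ a, z a = -1 → (∀ e, z (.inr e) ≤ 0) → push (col E c) z = push (col E c) z' →
  (∀ v v', v ≠ v' → c v = c v' → ∀ d, al z d →
    ¬ okp g z (.inl v) d ∧ ¬ okp g z' (.inl v) d) →
  (∃ a b, al z a ∧ al z b ∧ okp g z a b) → (∃ a b, al z a ∧ al z b ∧ okp g z' a b) →
  ∀ a b, al z a → al z b →
    (∀ v, (a = .inl v ∨ b = .inl v) → ∀ v', v ≠ v' → c v ≠ c v') →
    okp g z' a b → okp g z a b

/-- FIN. Finiteness and domination. The edge coordinates are fixed; every vertex coordinate is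
bounded above (`z({v}) ≤ 0` if `{v} ≠ V`, and if `V = {v}` by the total), hence below by the
total: the set lies in an `Icc`. Domination: a set `U` containing the end is hit by `e`. -/
def GoalFin : Prop := ∀ (V E P : Type) [Fintype V] [DecidableEq V] [Fintype E] [DecidableEq E]
  [Fintype P] [DecidableEq P] (g : E → V × V) (c : V → P),
  (∀ w, Set.Finite {z : V ⊕ E → ℤ | z ∈ JJ g ∧ push (col E c) z = w}) ∧
  (∀ w, 0 ≤ cnt g c w) ∧
  (∀ w, cnt g c w ≠ 0 ↔ ∃ z ∈ JJ g, push (col E c) z = w) ∧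
  (∀ (z : V ⊕ E → ℤ) (e : E), z ∈ JJ g → z - δ (.inr e) + δ (.inl (g e).1) ∈ JJ g ∧
    z - δ (.inr e) + δ (.inl (g e).2) ∈ JJ g)

/-- CNT. Splitting of a vertex `v₀` from its class. `push (col E c) z = w` iff
`push (col E (spc c v₀)) z = spl (c v₀) w i` with `i = z (inl v₀)`; for large `N` all `i` that
occur satisfy `|i| ≤ N` (FIN). Also the behaviour of `spl` under unit vectors. -/
def GoalCnt : Prop := GoalFin → ∀ (V E P : Type) [Fintype V] [DecidableEq V] [Fintype E]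
  [DecidableEq E] [Fintype P] [DecidableEq P] (g : E → V × V) (c : V → P) (v₀ : V),
  (∀ w : P ⊕ E → ℤ, ∃ N₀ : ℕ, ∀ N : ℕ, N₀ ≤ N →
    cnt g c w = ∑ i ∈ Icc (-(N : ℤ)) N, cnt g (spc c v₀) (spl (c v₀) w i) ∧
    ∀ i : ℤ, (N : ℤ) < |i| → cnt g (spc c v₀) (spl (c v₀) w i) = 0) ∧
  (∀ (w : P ⊕ E → ℤ) (z : V ⊕ E → ℤ), push (col E c) z = w →
    push (col E (spc c v₀)) z = spl (c v₀) w (z (.inl v₀))) ∧
  (∀ (w : P ⊕ E → ℤ) (i : ℤ),
    spl (c v₀) (w + δ (.inl (c v₀))) (i + 1) = spl (c v₀) w i + δ (.inl none) ∧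
    spl (c v₀) (w + δ (.inl (c v₀))) i = spl (c v₀) w i + δ (.inl (some (c v₀))) ∧
    (∀ p, p ≠ c v₀ → spl (c v₀) (w + δ (.inl p)) i = spl (c v₀) w i + δ (.inl (some p))) ∧
    (∀ e, spl (c v₀) (w + δ (.inr e)) i = spl (c v₀) w i + δ (.inr e)) ∧
    spl (c v₀) w i = spl (c v₀) w 0 + i • (δ (.inl none) - δ (.inl (some (c v₀)))))

/-- MAIN THEOREM. All windows of the counts are one-positive, for any multigraph and any
colouring; also the entries `(e,e)` for edges of size `1` (`#J` for size `-1`). -/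
def GoalMain : Prop := ∀ (V E P : Type) [Fintype V] [DecidableEq V] [Fintype E] [DecidableEq E]
  [Fintype P] [DecidableEq P] (g : E → V × V) (c : V → P), Function.Surjective c →
  ∀ w : P ⊕ E → ℤ, (∀ e, w (.inr e) ≤ 0) → OnePos (al w) (cw g c w)

/-- coordinates of the coefficient of `T^i` for the edge sizes `n`: colour `true` is `X` -/
def wt {E : Type} [Fintype E] (k : ℤ) (n : E → ℤ) (i : ℤ) : Bool ⊕ E → ℤ
  | .inl true => i + k
  | .inl false => ∑ e, n e + 1 - (i + k)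
  | .inr e => - n e

/-- NAT. A kernel that is affine in every channel and whose coefficients for rings of sizes
`n ≥ 0` are the counts of a multigraph whose edges join the two colours is POS. Proof. At the
base `(n, i)` put `w = (true : i + k, false : ∑ n - 1 - i - k, e : - n e)`; total `-1`. The entries of `kwin`
are `cw g c w` with `X ↦ inl true`, `Y ↦ inl false`, `V e ↦ inr e` (all sizes of the entries
`≥ 0`), except the entry `V e, V e` for `n e = 1`; there, by `Affine` and `geo (-1) = - T (-1)`,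
the natural value is `Φ(0)_(i+1) + Φ(0)_i - Φ(1)_(i+1)` (argument: size of `e`), i.e.
`cw (t,e) + cw (f,e) - cw (t,f)`. Let `u`, `v` be the ends of `e` of colours `true`, `false`. These
counts are the numbers of the refined bases `z` over `w` in `X_u = {z | z + δ u + δ e ∈ JJ}`,
`X_v = {z | z + δ v + δ e ∈ JJ}`, `X_uv = {z | z + δ u + δ v ∈ JJ}`, and `cw (e,e)` is the number of
those in `X_e = {z | z + 2 δ e ∈ JJ}`. `X_u ∪ X_v ⊆ X_uv` (domination) and `X_u ∩ X_v ⊆ X_e` (a set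
hit by `e` contains `u` or `v`). So the natural value is `≤ #(X_u ∩ X_v) ≤ #X_e`, and `0 ≤ #X_e`.
Conclusion from GoalMain by OP-MAP and OP-MONO. -/
def GoalNat : Prop := GoalMain → GoalFin → GoalOpMap → GoalOpMono →
  ∀ (V E : Type) [Fintype V] [DecidableEq V] [Fintype E] [DecidableEq E] (g : E → V × V)
    (c : V → Bool), Function.Surjective c → (∀ e, c (g e).1 ≠ c (g e).2) →
  ∀ (Φ : (E → Tg) → LaurentPolynomial ℝ), Affine Φ → ∀ k : ℤ,
    (∀ n : E → ℤ, (∀ e, 0 ≤ n e) → ∀ i : ℤ,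
      (Φ (fun e => U (n e))).coeff i = cnt g c (wt k n i)) →
    Pos Φ (fun _ => True) (fun _ => U 0)

/-! ### Stars -/

/-- the graph `K_(2,r)`: hubs `inl s`, middle vertices `inr i`, edges `(i,s)` -/
def starG (r : ℕ) : Fin r × Bool → (Bool ⊕ Fin r) × (Bool ⊕ Fin r) := fun e => (.inl e.2, .inr e.1)

/-- colour `true` of the middle vertices -/
def starC (r : ℕ) : Bool ⊕ Fin r → Bool
  | .inl _ => false
  | .inr _ => true

/-- the kernel of the star of `r` closure pairs -/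
noncomputable def starK (r : ℕ) (a : Fin r × Bool → Tg) : LaurentPolynomial ℝ :=
  ∑ i, (a (i, false)).F * (a (i, true)).F *
    ∏ j ∈ univ.erase i, ((a (j, false)).mul (a (j, true))).F

/-- STARJ. Membership in `JJ (starG r)` for sizes `≥ 0`. Write `ρ i = z (inl (inr i))`,
`σ s = z (inl (inl s))`, `n i s = - z (inr (i,s)) ≥ 0`. If the total is `1` then `z ∈ JJ` iff
`1 ≤ ρ i ≤ n i false + n i true` for all `i` and `σ false ≤ ∑ i, (n i false - max 0 (ρ i - n i true))`,
`σ true ≤ ∑ i, (n i true - max 0 (ρ i - n i false))`. Proof: the set `{middle i}` gives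
`ρ i ≤ n i false + n i true`, its complement gives `ρ i ≥ 1` (every edge has a hub), the set
`{hub s} ∪ W'` gives `σ s ≤ ∑ i, n i s + ∑_(W') (n i (!s) - ρ i)`, and the best `W'` consists
of the `i` with `ρ i > n i (!s)`. Conversely a set without hubs follows from the upper bounds for
`ρ`, a set with one hub from the third, and a proper set with two hubs from `ρ i ≥ 1` for an `i`
outside of it and `∑_(outside) ρ i ≥ 1`. -/
def GoalStarJ : Prop := ∀ (r : ℕ) (z : (Bool ⊕ Fin r) ⊕ (Fin r × Bool) → ℤ), ∑ a, z a = 1 →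
  (∀ e, z (.inr e) ≤ 0) →
  (z ∈ JJ (starG r) ↔
    (∀ i, 1 ≤ z (.inl (.inr i)) ∧
      z (.inl (.inr i)) ≤ - z (.inr (i, false)) - z (.inr (i, true))) ∧
    ∀ s, z (.inl (.inl s)) ≤
      ∑ i, (- z (.inr (i, s)) - max 0 (z (.inl (.inr i)) + z (.inr (i, !s)))))

/-- BETA. `β n m j = (j+1) - (j+1-n)⁺ - (j+1-m)⁺` is the coefficient of `T^j` in `[n][m]` for
`0 ≤ j < n + m`; the product has no other terms (`j = n + m - 1` gives `0`). -/
def GoalBeta : Prop := ∀ n m : ℕ,
  (geo n * geo m : LaurentPolynomial ℝ) = ∑ j ∈ range (n + m),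
    LaurentPolynomial.C (((j : ℝ) + 1) - max 0 ((j : ℝ) + 1 - n) - max 0 ((j : ℝ) + 1 - m)) *
      LaurentPolynomial.T j

/-- STARCNT. The coefficients of the star kernel for rings of sizes `n ≥ 0` are the counts. By
STARJ an element of `JJ` over `wt r n i` is given by `p j = ρ j - 1 ∈ [0, n_j + m_j - 1]`
(`n_j = n (j, false)`, `m_j = n (j, true)`) with `∑ p j = i`, and `σ false`, with
`σ false + σ true = R := ∑ n + 1 - i - r`. `σ false` runs over the integers with
`R - ∑ (m_j - (ρ j - n_j)⁺) ≤ σ false ≤ ∑ (n_j - (ρ j - m_j)⁺)`; their number is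
`∑_j (ρ j - (ρ j - m_j)⁺ - (ρ j - n_j)⁺) = ∑_j β_j(p j) ≥ 0` (each term is `≥ 0` as
`0 ≤ ρ j ≤ n_j + m_j`). On the other side `(U n * U m).F = geo (n+m)` (`U n * U m` has
`F = T n geo m + geo n`), `∏_j geo (n_j + m_j) = ∑_p T (∑ p)` (`Finset.prod_univ_sum`) and with
BETA `starK = ∑_p (∑_j β_j(p j)) T (∑ p)`, `p` in the product of the `range (n_j + m_j)`. -/
def GoalStarCnt : Prop := GoalFin → GoalStarJ → GoalBeta →
  ∀ (r : ℕ) (n : Fin r × Bool → ℤ), (∀ e, 0 ≤ n e) → ∀ i : ℤ,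
    (starK r (fun e => U (n e))).coeff i = cnt (starG r) (starC r) (wt r n i)

/-- STARAFF. `Affine` and `SlotNonneg` for the star kernel, and its last slot. With
`(i, s)` the changed channel, `starK` is `X * ((a (i,false)).mul (a (i,true))).F + Y *
(a (i,false)).F * (a (i,true)).F` with `X = ∑_(l ≠ i) B_l ∏_(j ≠ l,i) A_j`, `Y = ∏_(j ≠ i) A_j` not
depending on the channel; both factors are affine (as for `K2` in GoalAff), and the slot of the
channel `(i,true)` is `bes Y' X' (a (i,false))`-like: `F = X S.F`, `L = X S.L + Y S.F`,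
`R = X S.R + Y S.F` with `S = a (i,false)`, up to the order of the product (`A.mul B` and
`B.mul A` have the same `F`). Nonnegativity by GoalNonneg. -/
def GoalStarAff : Prop := GoalNonneg → ∀ r : ℕ, Affine (starK r) ∧ SlotNonneg (starK r) ∧
  ∀ (a : Fin (r + 1) × Bool → Tg),
    slot (starK (r + 1)) a (Fin.last r, true) =
      bes (∏ i : Fin r, ((a (i.castSucc, false)).mul (a (i.castSucc, true))).F)
        (∑ i : Fin r, (a (i.castSucc, false)).F * (a (i.castSucc, true)).F *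
          ∏ j ∈ univ.erase i, ((a (j.castSucc, false)).mul (a (j.castSucc, true))).F)
        (a (Fin.last r, false))

/-- STARPAIR (GoalStar of C2). For `r ≥ 1` closure pairs with tangles in HH1 the pair
`(∏ A_i, ∑ B_i ∏_(j ≠ i) A_j)` is good. Proof. The kernel `starK (r+1)` is POS for rings
(hypothesis). By induction over a finite set `s` of channels not containing
`(last, true)`: POS holds for the channels outside `s` with the channels in `s` replaced by given
tangles in HH1 (GoalSubst, `Pos` only depends on `asg`). Take `s` = all channels except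
`(last, true)`, `S i`, `T i` in the channels `(i.castSucc, false)`, `(i.castSucc, true)` and any `W` in
HH1 in the channel `(last, false)`, then GoalPos1 for the last channel and STARAFF. -/
def GoalStarPair : Prop := (∀ r, Pos (starK (r + 1)) (fun _ => True) (fun _ => U 0)) →
  GoalStarAff → GoalNonneg → GoalSubst → GoalCoefH → GoalOpMap → GoalPos1 →
  ∀ (r : ℕ) (S T : Fin r → Tg), (∀ i, (S i).HH1) → (∀ i, (T i).HH1) →
    GoodPair (∏ i, ((S i).mul (T i)).F)
      (∑ i, (S i).F * (T i).F * ∏ j ∈ univ.erase i, ((S j).mul (T j)).F)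

end Pool.Agent.Helper68.SK
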