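import Pool.Agent.Helper52.C2.Ker

/-!
PROJECT SK (MP_2b0227_gt, target T2): special kernels of arbitrary multigraphs. Definitions.

A multigraph is a map `g : E → V × V`. A vector `z : V ⊕ E → ℤ` has the vertex coordinates
`z (inl v)` and the edge coordinates `z (inr e) = - (size of the edge e)`.
-/

namespace Pool.Agent.Helper68.SK

open Finset Pool.Agent.Helper52.C2

/-- unit vector -/
def δ {D : Type} [DecidableEq D] (a : D) : D → ℤ := Pi.single a 1

/-- push-forward of a vector -/
def push {D D' : Type} [Fintype D] [DecidableEq D'] (f : D → D') (z : D → ℤ) : D' → ℤ :=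
  fun b => ∑ a, if f a = b then z a else 0

/-- the vertex or edge `a` hits the set `U` of vertices -/
def hit {V E : Type} (g : E → V × V) (U : Finset V) : V ⊕ E → Prop
  | .inl v => v ∈ U
  | .inr e => (g e).1 ∈ U ∨ (g e).2 ∈ U

instance {V E : Type} [DecidableEq V] (g : E → V × V) (U : Finset V) :
    DecidablePred (hit g U) := fun a => match a with
  | .inl v => inferInstanceAs (Decidable (v ∈ U))
  | .inr e => inferInstanceAs (Decidable ((g e).1 ∈ U ∨ (g e).2 ∈ U))

section

variable {V E P : Type} [Fintype V] [DecidableEq V] [Fintype E] [DecidableEq E] [Fintype P]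
  [DecidableEq P]

/-- mass of the elements hitting `U` -/
def mass (g : E → V × V) (z : V ⊕ E → ℤ) (U : Finset V) : ℤ := ∑ a, if hit g U a then z a else 0

/-- The set `J`, for edge sizes of any sign: `z` has total `1`, and for every nonempty proper
set `U` of vertices `z(U) ≤ n(E(U))`, `n e = - z (inr e)`, `E(U)` the edges meeting `U`. -/
def JJ (g : E → V × V) : Set (V ⊕ E → ℤ) :=
  {z | ∑ a, z a = 1 ∧ ∀ U : Finset V, U.Nonempty → U ≠ univ → mass g z U ≤ 0}

/-- the part of `J` with edge sizes `≥ 0` -/
def SS (g : E → V × V) : Set (V ⊕ E → ℤ) := {z | z ∈ JJ g ∧ ∀ e, z (.inr e) ≤ 0}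

/-- colouring of the vertices, extended to the edges -/
def col (E : Type) (c : V → P) : V ⊕ E → P ⊕ E := Sum.map c id

/-- number of the elements of `J` over `w` -/
noncomputable def cnt (g : E → V × V) (c : V → P) (w : P ⊕ E → ℤ) : ℝ :=
  (Set.ncard {z : V ⊕ E → ℤ | z ∈ JJ g ∧ push (col E c) z = w} : ℝ)

/-- the window of the counts at the base `w` -/
noncomputable def cw (g : E → V × V) (c : V → P) (w : P ⊕ E → ℤ) (a b : P ⊕ E) : ℝ :=
  cnt g c (w + δ a + δ b)

end

/-- allowed directions at the base `w`: all colours and the edges of size `≥ 1` -/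
def al {P E : Type} (w : P ⊕ E → ℤ) : P ⊕ E → Prop
  | .inl _ => True
  | .inr e => w (.inr e) ≤ -1

/-- the pair `a, b` is good at the refined base `z` -/
def okp {V E : Type} [Fintype V] [DecidableEq V] [Fintype E] [DecidableEq E] (g : E → V × V)
    (z : V ⊕ E → ℤ) (a b : V ⊕ E) : Prop := z + δ a + δ b ∈ JJ g

/-- one-sided exchange -/
def Exch {D : Type} [DecidableEq D] (S : Set (D → ℤ)) : Prop :=
  ∀ z ∈ S, ∀ w ∈ S, ∀ u, w u < z u → ∃ y, z y < w y ∧ z - δ u + δ y ∈ S

/-- the window of a chain in the directions `1 = inl false`, `2 = inl true` and `ι` -/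
def mat2 {ι : Type} (a : ℤ → ℝ) (b : ℤ → ι → ℝ) (c : ℤ → ι → ι → ℝ) (i : ℤ) :
    Bool ⊕ ι → Bool ⊕ ι → ℝ
  | .inl false, .inl false => a (i + 2)
  | .inl false, .inl true => a (i + 1)
  | .inl true, .inl false => a (i + 1)
  | .inl true, .inl true => a i
  | .inl false, .inr w => b (i + 1) w
  | .inr w, .inl false => b (i + 1) w
  | .inl true, .inr w => b i w
  | .inr w, .inl true => b i w
  | .inr w, .inr w' => c i w w'

/-- the merged window -/
def mat1 {ι : Type} (A : ℝ) (B : ι → ℝ) (C : ι → ι → ℝ) : Option ι → Option ι → ℝ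
  | none, none => A
  | none, some w => B w
  | some w, none => B w
  | some w, some w' => C w w'

/-- allowed directions of `mat2` -/
def ok2 {ι : Type} (ok : ι → Prop) : Bool ⊕ ι → Prop
  | .inl _ => True
  | .inr w => ok w

/-- allowed directions of `mat1` -/
def ok1 {ι : Type} (ok : ι → Prop) : Option ι → Prop
  | none => True
  | some w => ok w

/-- splitting of the vertex `v₀` from its colour -/
def spc {V P : Type} [DecidableEq V] (c : V → P) (v₀ : V) : V → Option P :=
  fun v => if v = v₀ then none else some (c v)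

/-- splitting of a vector: the new colour gets `i`, `x` gets the rest -/
def spl {P E : Type} [DecidableEq P] (x : P) (w : P ⊕ E → ℤ) (i : ℤ) : Option P ⊕ E → ℤ
  | .inl none => i
  | .inl (some p) => if p = x then w (.inl p) - i else w (.inl p)
  | .inr e => w (.inr e)

end Pool.Agent.Helper68.SK
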