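import Pool.Agent.Helper68.SK.Goals

/-! PROJECT SK: assembly of the main theorem. -/

namespace Pool.Agent.Helper68.SK

open Finset Pool.Agent.Helper52.C2

section

variable {V E P : Type} [Fintype V] [DecidableEq V] [Fintype E] [DecidableEq E] [Fintype P]
  [DecidableEq P]

theorem okp_comm (g : E → V × V) (z : V ⊕ E → ℤ) (a b : V ⊕ E) : okp g z a b ↔ okp g z b a := by
  unfold okp; rw [add_right_comm]

theorem cw_comm (g : E → V × V) (c : V → P) (w : P ⊕ E → ℤ) (a b : P ⊕ E) :
    cw g c w a b = cw g c w b a := by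
  unfold cw; rw [add_right_comm]

theorem quad_zero {ι : Type} [Fintype ι] (ok : ι → Prop) (M : ι → ι → ℝ)
    (h : ∀ a b, ok a → ok b → M a b = 0) : OnePos ok M := by
  refine ⟨fun _ => 0, fun v hv _ => le_of_eq ?_⟩
  unfold quad
  refine Finset.sum_eq_zero fun a _ => Finset.sum_eq_zero fun b _ => ?_
  by_cases ha : ok a
  · by_cases hb : ok b
    · rw [h a b ha hb]; ring
    · rw [hv b hb]; ring
  · rw [hv a ha]; ring

theorem case2 (hsub : GoalSub) (hexc : GoalExc) (href : GoalRef) (hpeq : GoalPeq)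
    (heq : GoalEq) (hfin : GoalFin) (g : E → V × V) (c : V → P)
    (hc : Function.Surjective c) (w : P ⊕ E → ℤ) (hw : ∑ a, w a = -1)
    (hn : ∀ e, w (.inr e) ≤ 0)
    (hl : ∀ v v', v ≠ v' → c v = c v' → ∀ d, al w d → cw g c w (.inl (c v)) d = 0) :
    OnePos (al w) (cw g c w) := by
  classical
  by_cases hlive : ∃ a b, al w a ∧ al w b ∧ cw g c w a b ≠ 0
  swap
  · refine quad_zero _ _ fun a b ha hb => ?_
    by_contra h
    exact hlive ⟨a, b, ha, hb, h⟩
  obtain ⟨a0, b0, ha0, hb0, h0⟩ := hlive
  obtain ⟨-, hcn, hnz, -⟩ := hfin V E P g c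
  obtain ⟨ptot, padd, psub, pδ⟩ := hsub.2 (V ⊕ E) (P ⊕ E) (col E c)
  set γ : P ⊕ E → V ⊕ E := Sum.map (Function.surjInv hc) id with hγ
  have cγ : ∀ a, col E c (γ a) = a := by
    rintro (p | e)
    · simp [hγ, col, Function.surjInv_eq hc]
    · simp [hγ, col]
  have pγ : ∀ a, push (col E c) (δ (γ a)) = δ a := fun a => by rw [pδ, cγ]
  have pe : ∀ z : V ⊕ E → ℤ, push (col E c) z = w → ∀ e, z (.inr e) = w (.inr e) := by
    intro z hz e
    rw [← hz]
    unfold push
    rw [Finset.sum_eq_single (Sum.inr e)]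
    · simp [col]
    · rintro (v | e') - hne
      · simp [col]
      · have : ¬ (e' = e) := fun h => hne (by rw [h])
        simp [col, this]
    · simp
  have alz : ∀ z : V ⊕ E → ℤ, push (col E c) z = w → ∀ a, al z a ↔ al w (col E c a) := by
    intro z hz a
    rcases a with v | e
    · simp [al, col]
    · simp [al, col, pe z hz e]
  -- counts and good pairs
  have good_ne : ∀ z : V ⊕ E → ℤ, push (col E c) z = w → ∀ a b, okp g z a b →
      cw g c w (col E c a) (col E c b) ≠ 0 := by
    intro z hz a b hab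
    refine (hnz _).2 ⟨_, hab, ?_⟩
    rw [padd, padd, pδ, pδ, hz]
  have loops : ∀ z : V ⊕ E → ℤ, push (col E c) z = w → ∀ v v', v ≠ v' → c v = c v' →
      ∀ d, al z d → ¬ okp g z (.inl v) d := by
    intro z hz v v' hne hcv d hd hok
    exact good_ne z hz _ _ hok (hl v v' hne hcv _ ((alz z hz d).1 hd))
  have tr : ∀ z z' : V ⊕ E → ℤ, push (col E c) z = w → push (col E c) z' = w →
      (∃ a b, al z a ∧ al z b ∧ okp g z a b) → (∃ a b, al z a ∧ al z b ∧ okp g z' a b) →
      ∀ a b, al z a → al z b → okp g z' a b → okp g z a b := by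
    intro z z' hz hz' h1 h2 a b ha hb hok
    have halz : ∀ d, al z d → al z' d := fun d hd => (alz z' hz' d).2 ((alz z hz d).1 hd)
    refine heq hsub hexc V E P g c z z' ?_ ?_ (hz.trans hz'.symm) ?_ h1 h2 a b ha hb ?_ hok
    · rw [← ptot, hz, hw]
    · intro e; rw [pe z hz e]; exact hn e
    · intro v v' hne hcv d hd
      exact ⟨loops z hz v v' hne hcv d hd, loops z' hz' v v' hne hcv d (halz d hd)⟩
    · intro v hv v' hne hcv
      rcases hv with rfl | rfl
      · exact loops z' hz' v v' hne hcv b (halz b hb) hok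
      · exact loops z' hz' v v' hne hcv a (halz a ha) ((okp_comm _ _ _ _).1 hok)
  -- the refined base
  obtain ⟨z0, hz0, hp0⟩ := (hnz _).1 h0
  set ζ : V ⊕ E → ℤ := z0 - δ (γ a0) - δ (γ b0) with hζ
  have base : ∀ (z : V ⊕ E → ℤ) (a b : P ⊕ E), push (col E c) z = w + δ a + δ b →
      push (col E c) (z - δ (γ a) - δ (γ b)) = w := by
    intro z a b hz
    rw [psub, psub, pγ, pγ, hz]; abel
  have back : ∀ (z : V ⊕ E → ℤ) (a b : P ⊕ E),
      z - δ (γ a) - δ (γ b) + δ (γ a) + δ (γ b) = z := by
    intro z a b; abel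
  have pζ : push (col E c) ζ = w := base z0 a0 b0 hp0
  have ok0 : okp g ζ (γ a0) (γ b0) := by
    unfold okp; rw [hζ, back]; exact hz0
  have alγ : ∀ z : V ⊕ E → ℤ, push (col E c) z = w → ∀ a, al w a → al z (γ a) := by
    intro z hz a ha
    rw [alz z hz, cγ]; exact ha
  have liveζ : ∃ a b, al ζ a ∧ al ζ b ∧ okp g ζ a b :=
    ⟨_, _, alγ ζ pζ a0 ha0, alγ ζ pζ b0 hb0, ok0⟩
  have liveOf : ∀ z z' : V ⊕ E → ℤ, push (col E c) z = w → push (col E c) z' = w →
      ∀ a b, al w a → al w b → okp g z' (γ a) (γ b) → ∃ a b, al z a ∧ al z b ∧ okp g z' a b := by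
    intro z z' hz _ a b ha hb h
    exact ⟨_, _, alγ z hz a ha, alγ z hz b hb, h⟩
  set M : P ⊕ E → P ⊕ E → ℝ := fun a b => if okp g ζ (γ a) (γ b) then 1 else 0 with hM
  have hMp : OnePos (al w) M := by
    refine hpeq _ _ _ (fun a b => ?_) (fun a b => ?_) ?_
    · simp only [hM]; split_ifs
      · exact Or.inr rfl
      · exact Or.inl rfl
    · simp only [hM, okp_comm g ζ (γ a) (γ b)]
    · intro a b c' d _ hb _ _ hab hbc hbd
      simp only [hM] at hab hbc hbd ⊢
      rw [if_neg]
      refine href hsub V E g ζ ?_ ?_ (γ a) (γ b) (γ c') (γ d) (alγ ζ pζ b hb) ?_ ?_ ?_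
      · rw [← ptot, pζ, hw]
      · intro e; rw [pe ζ pζ e]; exact hn e
      · intro h; simp [h] at hab
      · intro h; simp [h] at hbc
      · by_contra h; simp [h] at hbd
  -- comparison of counts
  have le : ∀ a b a' b', al w a → al w b → al w a' → al w b' →
      okp g ζ (γ a') (γ b') → cw g c w a b ≤ cw g c w a' b' := by
    intro a b a' b' ha hb ha' hb' hok
    unfold cw cnt
    have hf := (hfin V E P g c).1 (w + δ a' + δ b')
    have : Set.ncard {z : V ⊕ E → ℤ | z ∈ JJ g ∧ push (col E c) z = w + δ a + δ b} ≤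
        Set.ncard {z : V ⊕ E → ℤ | z ∈ JJ g ∧ push (col E c) z = w + δ a' + δ b'} := by
      refine Set.ncard_le_ncard_of_injOn
        (fun z => z - δ (γ a) - δ (γ b) + δ (γ a') + δ (γ b')) ?_ ?_ hf
      · rintro z ⟨hz, hpz⟩
        have hb1 := base z a b hpz
        refine ⟨?_, ?_⟩
        · refine tr _ ζ hb1 pζ ?_ (liveOf _ ζ hb1 pζ a' b' ha' hb' hok) _ _
            (alγ _ hb1 a' ha') (alγ _ hb1 b' hb') hok
          refine ⟨γ a, γ b, alγ _ hb1 a ha, alγ _ hb1 b hb, ?_⟩
          unfold okp; rw [back]; exact hz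
        · show push (col E c) (z - δ (γ a) - δ (γ b) + δ (γ a') + δ (γ b')) = _
          rw [padd, padd, pγ, pγ, hb1]
      · intro z _ z' _ h
        have h' : z - δ (γ a) - δ (γ b) + δ (γ a') + δ (γ b') =
          z' - δ (γ a) - δ (γ b) + δ (γ a') + δ (γ b') := h
        simpa using h'
    exact_mod_cast this
  have key : ∀ a b, al w a → al w b → cw g c w a b = cw g c w a0 b0 * M a b := by
    intro a b ha hb
    by_cases hok : okp g ζ (γ a) (γ b)
    · simp only [hM, if_pos hok, mul_one]
      exact le_antisymm (le a b a0 b0 ha hb ha0 hb0 ok0) (le a0 b0 a b ha0 hb0 ha hb hok)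
    · simp only [hM, if_neg hok, mul_zero]
      by_contra hne
      obtain ⟨z, hz, hpz⟩ := (hnz _).1 hne
      apply hok
      have hb1 := base z a b hpz
      have hok1 : okp g (z - δ (γ a) - δ (γ b)) (γ a) (γ b) := by
        unfold okp; rw [back]; exact hz
      exact tr ζ _ pζ hb1 liveζ (liveOf ζ _ pζ hb1 a b ha hb hok1) _ _ (alγ ζ pζ a ha)
        (alγ ζ pζ b hb) hok1
  obtain ⟨l, hl'⟩ := hMp
  refine ⟨l, fun v hv hlv => ?_⟩
  have e : quad (cw g c w) v = cw g c w a0 b0 * quad M v := by
    unfold quad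
    rw [Finset.mul_sum]
    refine Finset.sum_congr rfl fun a _ => ?_
    rw [Finset.mul_sum]
    refine Finset.sum_congr rfl fun b _ => ?_
    by_cases ha : al w a
    · by_cases hb : al w b
      · rw [key a b ha hb]; ring
      · rw [hv b hb]; ring
    · rw [hv a ha]; ring
  rw [e]
  exact mul_nonpos_of_nonneg_of_nonpos (hcn _) (hl' v hv hlv)

/-- directions of the split window -/
def kap (x : P) : Bool ⊕ (P ⊕ E) → Option P ⊕ E
  | .inl false => .inl none
  | .inl true => .inl (some x)
  | .inr (.inl p) => .inl (some p)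
  | .inr (.inr e) => .inr e

theorem case1 (hsub : GoalSub) (hexc : GoalExc) (hproj : GoalProj) (his : GoalIS)
    (hchain : GoalChain) (hfin : GoalFin) (hcnt : GoalCnt) (hmap : GoalOpMap)
    (g : E → V × V) (c : V → P) (w : P ⊕ E → ℤ)
    (hn : ∀ e, w (.inr e) ≤ 0) (v₀ : V) (d₀ : P ⊕ E) (hd₀ : al w d₀)
    (hne : cw g c w (.inl (c v₀)) d₀ ≠ 0)
    (IH : ∀ i, OnePos (al (spl (c v₀) w i)) (cw g (spc c v₀) (spl (c v₀) w i))) :
    OnePos (al w) (cw g c w) := by
  classical
  obtain ⟨-, hcn, hnz, -⟩ := hfin V E P g c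
  obtain ⟨-, hcn', hnz', hdom⟩ := hfin V E (Option P) g (spc c v₀)
  obtain ⟨hN, hspl, hδ⟩ := hcnt hfin V E P g c v₀
  obtain ⟨-, padd, psub, pδ⟩ := hsub.2 (V ⊕ E) (Option P ⊕ E) (col E (spc c v₀))
  set x := c v₀ with hx
  set c' := spc c v₀ with hc'
  choose N0 hN0 using hN
  set N : ℕ := (univ : Finset ((P ⊕ E) × (P ⊕ E))).sup (fun q => N0 (w + δ q.1 + δ q.2)) with hNdef
  have hNle : ∀ d d' : P ⊕ E, N0 (w + δ d + δ d') ≤ N := fun d d' =>
    Finset.le_sup (f := fun q : (P ⊕ E) × (P ⊕ E) => N0 (w + δ q.1 + δ q.2))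
      (Finset.mem_univ (d, d'))
  have hsum : ∀ d d' : P ⊕ E, cnt g c (w + δ d + δ d') =
      ∑ i ∈ Icc (-(N : ℤ)) N, cnt g c' (spl x (w + δ d + δ d') i) := fun d d' =>
    (hN0 _ N (hNle d d')).1
  have hzero : ∀ (d d' : P ⊕ E) (i : ℤ), (N : ℤ) < |i| →
      cnt g c' (spl x (w + δ d + δ d') i) = 0 := fun d d' => (hN0 _ N (hNle d d')).2
  set a : ℤ → ℝ := fun p => cnt g c' (spl x (w + δ (.inl x) + δ (.inl x)) p) with ha
  set b : ℤ → (P ⊕ E) → ℝ := fun p d => cnt g c' (spl x (w + δ (.inl x) + δ d) p) with hb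
  set cc : ℤ → (P ⊕ E) → (P ⊕ E) → ℝ := fun p d d' => cnt g c' (spl x (w + δ d + δ d') p) with hcc
  set ok : (P ⊕ E) → Prop := fun d => al w d ∧ d ≠ .inl x with hok
  -- unit vectors
  have s1 : ∀ (u : P ⊕ E → ℤ) (i : ℤ), spl x (u + δ (.inl x)) (i + 1) =
    spl x u i + δ (.inl none) := fun u i => (hδ u i).1
  have s2 : ∀ (u : P ⊕ E → ℤ) (i : ℤ), spl x (u + δ (.inl x)) i =
    spl x u i + δ (.inl (some x)) := fun u i => (hδ u i).2.1
  have s3 : ∀ (u : P ⊕ E → ℤ) (i : ℤ) (d : P ⊕ E), d ≠ .inl x → spl x (u + δ d) i =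
      spl x u i + δ (kap x (.inr d)) := by
    intro u i d hd
    rcases d with p | e
    · exact (hδ u i).2.2.1 p (fun h => hd (by rw [h]))
    · exact (hδ u i).2.2.2.1 e
  have s5 : ∀ (u : P ⊕ E → ℤ) (i : ℤ), spl x u i = spl x u 0 +
    i • (δ (.inl none) - δ (.inl (some x))) := fun u i => (hδ u i).2.2.2.2
  have s11 : ∀ i : ℤ, spl x (w + δ (.inl x) + δ (.inl x)) (i + 2) =
      spl x w i + δ (.inl none) + δ (.inl none) := by
    intro i
    rw [show i + 2 = (i + 1) + 1 by ring, s1, s1]
  have s12 : ∀ i : ℤ, spl x (w + δ (.inl x) + δ (.inl x)) (i + 1) =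
      spl x w i + δ (.inl none) + δ (.inl (some x)) := by
    intro i
    rw [s2, s1]
  have s22 : ∀ i : ℤ, spl x (w + δ (.inl x) + δ (.inl x)) i =
      spl x w i + δ (.inl (some x)) + δ (.inl (some x)) := by
    intro i
    rw [s2, s2]
  -- the split windows
  have hmat : ∀ (i : ℤ) (α β : Bool ⊕ (P ⊕ E)), ok2 ok α → ok2 ok β →
      mat2 a b cc i α β = cw g c' (spl x w i) (kap x α) (kap x β) := by
    intro i α β hα hβ
    rcases α with (_ | _) | d <;> rcases β with (_ | _) | d'
    · simp only [mat2, ha, cw, s11, kap]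
    · simp only [mat2, ha, cw, s12, kap]
    · simp only [mat2, hb, cw]
      rw [s3 _ _ _ hβ.2, s1]; simp only [kap]
    · simp only [mat2, ha, cw, s12, kap]
      rw [add_right_comm]
    · simp only [mat2, ha, cw, s22, kap]
    · simp only [mat2, hb, cw]
      rw [s3 _ _ _ hβ.2, s2]; simp only [kap]
    · simp only [mat2, hb, cw]
      rw [s3 _ _ _ hα.2, s1, add_right_comm]; simp only [kap]
    · simp only [mat2, hb, cw]
      rw [s3 _ _ _ hα.2, s2, add_right_comm]; simp only [kap]
    · simp only [mat2, hcc, cw]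
      rw [s3 _ _ _ hβ.2, s3 _ _ _ hα.2]
  have hal : ∀ (i : ℤ) (α : Bool ⊕ (P ⊕ E)), ok2 ok α → al (spl x w i) (kap x α) := by
    intro i α hα
    rcases α with (_ | _) | (p | e)
    · trivial
    · trivial
    · trivial
    · exact hα.1
  -- the set `S'`
  set S' : Set (Option P ⊕ E → ℤ) := push (col E c') '' SS g with hS'
  have hS'ex : Exch S' := hproj hsub _ _ _ _ (hexc hsub V E g)
  have hSe : ∀ u ∈ S', ∀ e, u (.inr e) ≤ 0 := by
    rintro _ ⟨z, hz, rfl⟩ e
    have : push (col E c') z (.inr e) = z (.inr e) := by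
      unfold push
      rw [Finset.sum_eq_single (Sum.inr e)]
      · simp [col]
      · rintro (v | e') - hne
        · simp [col]
        · have : ¬ (e' = e) := fun h => hne (by rw [h])
          simp [col, this]
      · simp
    rw [this]; exact hz.2 e
  have pe : ∀ (z : V ⊕ E → ℤ) (e : E), push (col E c') z (.inr e) = z (.inr e) := by
    intro z e
    unfold push
    rw [Finset.sum_eq_single (Sum.inr e)]
    · simp [col]
    · rintro (v | e') - hne
      · simp [col]
      · have : ¬ (e' = e) := fun h => hne (by rw [h])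
        simp [col, this]
    · simp
  -- live windows
  have live : ∀ (i : ℤ), (∃ α β, ok2 ok α ∧ ok2 ok β ∧ mat2 a b cc i α β ≠ 0) →
      ∃ d d', spl x w i + δ d + δ d' ∈ S' := by
    rintro i ⟨α, β, hα, hβ, hne⟩
    rw [hmat i α β hα hβ] at hne
    obtain ⟨z, hz, hpz⟩ := (hnz' _).1 hne
    by_cases hin : ∀ e, z (.inr e) ≤ 0
    · exact ⟨_, _, z, ⟨hz, hin⟩, hpz⟩
    · push Not at hin
      obtain ⟨e, he⟩ := hin
      have hze : z (.inr e) = (spl x w i + δ (kap x α) + δ (kap x β)) (.inr e) := by
        rw [← hpz, pe]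
      have hwe : spl x w i (.inr e) = w (.inr e) := rfl
      have hA := hal i α hα
      have hB := hal i β hβ
      have hn' := hn e
      have hαe : kap x α = .inr e ∧ kap x β = .inr e := by
        simp only [Pi.add_apply, δ, Pi.single_apply, hwe] at hze
        by_contra hcon
        rw [not_and_or] at hcon
        rcases hcon with h | h
        · rw [if_neg (fun h' : (Sum.inr e : Option P ⊕ E) = kap x α => h h'.symm)] at hze
          by_cases h2 : (Sum.inr e : Option P ⊕ E) = kap x β
          · rw [← h2] at hB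
            have : w (.inr e) ≤ -1 := hB
            rw [if_pos h2] at hze; omega
          · rw [if_neg h2] at hze; omega
        · rw [if_neg (fun h' : (Sum.inr e : Option P ⊕ E) = kap x β => h h'.symm)] at hze
          by_cases h2 : (Sum.inr e : Option P ⊕ E) = kap x α
          · rw [← h2] at hA
            have : w (.inr e) ≤ -1 := hA
            rw [if_pos h2] at hze; omega
          · rw [if_neg h2] at hze; omega
      refine ⟨.inr e, .inl (c' (g e).1), z - δ (.inr e) + δ (.inl (g e).1),
        ⟨(hdom z e hz).1, ?_⟩, ?_⟩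
      · intro e'
        have hze' : z (.inr e') = (spl x w i + δ (kap x α) + δ (kap x β)) (.inr e') := by
          rw [← hpz, pe]
        have hwe' : spl x w i (.inr e') = w (.inr e') := rfl
        rw [hαe.1, hαe.2] at hze'
        rw [hαe.1] at hA
        have hA' : w (.inr e) ≤ -1 := hA
        have hn'' := hn e'
        simp only [Pi.add_apply, Pi.sub_apply, δ, Pi.single_apply, hwe'] at hze' ⊢
        by_cases hee : e' = e
        · subst hee
          simp at hze' ⊢; omega
        · have h1 : ¬ ((Sum.inr e' : Option P ⊕ E) = Sum.inr e) := fun h => hee (by simpa using h)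
          have h2 : ¬ ((Sum.inr e' : V ⊕ E) = Sum.inr e) := fun h => hee (by simpa using h)
          rw [if_neg h1] at hze'
          rw [if_neg h2]; simp; omega
      · rw [padd, psub, pδ, pδ, hpz, hαe.1, hαe.2]
        have hcol1 : col E c' (.inr e) = .inr e := rfl
        have hcol2 : col E c' (.inl (g e).1) = .inl (c' (g e).1) := rfl
        rw [hcol1, hcol2]
        abel
  -- the chain lemma
  have hch := hchain (P ⊕ E) ok N a b cc (fun p => hcn' _) (fun p d => hcn' _)
    (fun p d d' => hcn' _) (fun p d d' => by simp only [hcc]; rw [add_right_comm])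
    (fun p hp => ⟨hzero _ _ p hp, fun d => hzero _ _ p hp, fun d d' => hzero _ _ p hp⟩)
    (fun i => hmap _ _ (al (spl x w i)) (ok2 ok) (cw g c' (spl x w i)) (mat2 a b cc i) (kap x)
      (IH i) (hal i) (fun α β hα hβ => hmat i α β hα hβ))
    (by
      intro i m j him hmj hi hj
      obtain ⟨di, di', hdi⟩ := live i hi
      obtain ⟨dj, dj', hdj⟩ := live j hj
      -- a point of `T`
      have hT : ∃ p d, spl x w p + δ (.inl none) + δ d ∈ S' := by
        obtain ⟨z, hz, hpz⟩ := (hnz _).1 hne
        have hzS : z ∈ SS g := by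
          refine ⟨hz, fun e => ?_⟩
          have h1 : push (col E c) z (.inr e) = z (.inr e) := by
            unfold push
            rw [Finset.sum_eq_single (Sum.inr e)]
            · simp [col]
            · rintro (v | e') - hne
              · simp [col]
              · have : ¬ (e' = e) := fun h => hne (by rw [h])
                simp [col, this]
            · simp
          rw [hpz] at h1
          rw [← h1]
          have hn' := hn e
          simp only [Pi.add_apply, δ, Pi.single_apply]
          by_cases h2 : (Sum.inr e : P ⊕ E) = d₀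
          · rw [← h2] at hd₀
            have : w (.inr e) ≤ -1 := hd₀
            simp [h2.symm]; omega
          · simp [h2]; omega
        have hs := hspl _ z hpz
        refine ⟨z (.inl v₀) - 1, ?_⟩
        by_cases hd : d₀ = .inl x
        · subst hd
          refine ⟨.inl (some x), z, hzS, ?_⟩
          rw [hs, ← s12]; congr 1; ring
        · refine ⟨kap x (.inr d₀), z, hzS, ?_⟩
          rw [hs, s3 _ _ _ hd, ← s1]; congr 2; ring
      obtain ⟨p, d, hp⟩ := hT
      rw [s5] at hp hdi hdj
      obtain ⟨d', hm⟩ := (his (Option P ⊕ E) S' hS'ex).2 (spl x w 0) (.inl none)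
        (.inl (some x)) p i j m (by simp) ⟨d, hp⟩ ⟨di, di', hdi⟩ ⟨dj, dj', hdj⟩ him hmj
      rw [← s5] at hm
      have hall : ∃ β, ok2 ok β ∧ kap x β = d' := by
        rcases d' with (_ | q) | e
        · exact ⟨.inl false, trivial, rfl⟩
        · by_cases hq : q = x
          · subst hq; exact ⟨.inl true, trivial, rfl⟩
          · exact ⟨.inr (.inl q), ⟨trivial, by simpa using hq⟩, rfl⟩
        · refine ⟨.inr (.inr e), ⟨?_, by simp⟩, rfl⟩
          have := hSe _ hm e
          simp only [Pi.add_apply, δ, Pi.single_apply] at this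
          have hwe : spl x w m (.inr e) = w (.inr e) := rfl
          simp [hwe] at this
          show w (.inr e) ≤ -1
          omega
      obtain ⟨β, hβ, rfl⟩ := hall
      refine ⟨β, hβ, ?_⟩
      rw [hmat m (.inl false) β trivial hβ]
      refine (hnz' _).2 ?_
      obtain ⟨z, hz, hpz⟩ := hm
      exact ⟨z, hz.1, hpz⟩)
  refine hmap _ _ (ok1 ok) (al w) _ (cw g c w)
    (fun d => if d = .inl x then none else some d) hch ?_ ?_
  · intro d hd
    by_cases h : d = .inl x
    · simp [h, ok1]
    · simp only [h, if_false]; exact ⟨hd, h⟩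
  · intro d d' hd hd'
    unfold cw
    rw [hsum]
    by_cases h : d = .inl x <;> by_cases h' : d' = .inl x
    · simp only [h, h', if_true, mat1, ha]
    · simp only [h, h', if_true, if_false, mat1, hb]
    · simp only [h, h', if_true, if_false, mat1, hb]
      refine Finset.sum_congr rfl fun p _ => ?_
      rw [add_right_comm]
    · simp only [h, h', if_false, mat1, hcc]

end

theorem main (hsub : GoalSub) (hexc : GoalExc) (hproj : GoalProj) (his : GoalIS)
    (href : GoalRef) (hpeq : GoalPeq) (hchain : GoalChain) (heq : GoalEq) (hfin : GoalFin)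
    (hcnt : GoalCnt) (hmap : GoalOpMap) : GoalMain := by
  intro V E P _ _ _ _ i1 i2 g c hc w hw
  have main : ∀ (k : ℕ) (P : Type) (i1 : Fintype P) (i2 : DecidableEq P) (c : V → P),
      Function.Surjective c → ∀ w : P ⊕ E → ℤ, (∀ e, w (.inr e) ≤ 0) →
      Fintype.card V ≤ Fintype.card P + k → OnePos (al w) (cw g c w) := by
    intro k
    induction k with
    | zero =>
      intro P i1 i2 c hc w hw hk
      have hinj : Function.Injective c := by
        have hcard : Fintype.card V = Fintype.card P :=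
          le_antisymm (by simpa using hk) (Fintype.card_le_of_surjective c hc)
        exact ((Fintype.bijective_iff_surjective_and_card c).2 ⟨hc, hcard⟩).1
      by_cases htot : ∑ a, w a = -1
      · refine case2 hsub hexc href hpeq heq hfin g c hc w htot hw ?_
        intro v v' hne hcv
        exact absurd (hinj hcv) hne
      · refine quad_zero _ _ fun a b _ _ => ?_
        by_contra hne
        obtain ⟨z, hz, hpz⟩ := ((hfin V E P g c).2.2.1 _).1 hne
        apply htot
        have h1 := (hsub.2 (V ⊕ E) (P ⊕ E) (col E c)).1 z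
        rw [hpz, hz.1] at h1
        simp only [Pi.add_apply, Finset.sum_add_distrib, δ, Finset.sum_pi_single',
          Finset.mem_univ, if_true] at h1
        linarith
    | succ k ih =>
      intro P i1 i2 c hc w hw hk
      by_cases htot : ∑ a, w a = -1
      · by_cases hex : ∃ v v', v ≠ v' ∧ c v = c v' ∧ ∃ d, al w d ∧ cw g c w (.inl (c v)) d ≠ 0
        · obtain ⟨v, v', hne, hcv, d, hd, h0⟩ := hex
          refine case1 hsub hexc hproj his hchain hfin hcnt hmap g c w hw v d hd h0 ?_
          intro i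
          refine ih (Option P) inferInstance inferInstance (spc c v) ?_ _ hw ?_
          · rintro (_ | p)
            · exact ⟨v, by simp [spc]⟩
            · obtain ⟨u, rfl⟩ := hc p
              by_cases hu : u = v
              · subst hu
                exact ⟨v', by simp [spc, hne.symm, hcv]⟩
              · exact ⟨u, by simp [spc, hu]⟩
          · rw [Fintype.card_option]; omega
        · refine case2 hsub hexc href hpeq heq hfin g c hc w htot hw ?_
          intro v v' hne hcv d hd
          by_contra h0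
          exact hex ⟨v, v', hne, hcv, d, hd, h0⟩
      · refine quad_zero _ _ fun a b _ _ => ?_
        by_contra hne
        obtain ⟨z, hz, hpz⟩ := ((hfin V E P g c).2.2.1 _).1 hne
        apply htot
        have h1 := (hsub.2 (V ⊕ E) (P ⊕ E) (col E c)).1 z
        rw [hpz, hz.1] at h1
        simp only [Pi.add_apply, Finset.sum_add_distrib, δ, Finset.sum_pi_single',
          Finset.mem_univ, if_true] at h1
        linarith
  exact main (Fintype.card V) P i1 i2 c hc w hw (by omega)

end Pool.Agent.Helper68.SK
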